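import Pool.Agent.Helper38.SD.GoalsO
import Pool.Agent.Helper38.SD.Third
import Pool.Agent.Helper80.SD.MFUN
import Pool.Agent.Helper38.FD.Twist
import Pool.Agent.Helper13.RL.GOO2

/-!
# Project SD (MP_fc6b1e_nt), packet D_OLD

The theorem HalfOfCMTypesCyclic follows from the first part of the new theorem.
-/

set_option autoImplicit false

namespace Pool.Agent.Helper9.SD

open NumberField Module IsDedekindDomain TensorProduct
open Pool.Agent.Helper51.SigLeo Pool.Agent.Helper51.RP
open Pool.Agent.Helper16.SD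
open Pool.Agent.Helper38.SD
open Pool.Agent.Helper42.RD (TSet)
open Pool.Agent.Helper38.FD (Chr CutsOut LeopoldtFor LeopoldtOn Restricts IsOrdinary)
open Pool.Agent.Helper13.RL (bc_inj ups ups_inj ups_equiv log_ups el_ups)
open Pool.Agent.Helper13.RS (bc)

/-- CM fields and isomorphisms. -/
theorem cm_of_equiv {H H' : Type} [Field H] [NumberField H] [Field H'] [NumberField H']
    (e : H' ≃+* H) (h : IsCMField H') : IsCMField H := by
  have : IsTotallyComplex H := by
    let _ : Algebra H' H := (e : H' →+* H).toAlgebra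
    exact isTotallyComplex_of_algebra H' H
  let i : maximalRealSubfield H' →+* H := (e : H' →+* H).comp (algebraMap _ H')
  let _ : Algebra (maximalRealSubfield H') H := i.toAlgebra
  have : Algebra.IsQuadraticExtension (maximalRealSubfield H') H :=
    { finrank_eq_two' :=
        (Algebra.IsQuadraticExtension.finrank_eq_two (maximalRealSubfield H') H') ▸
          (Algebra.finrank_eq_of_equiv_equiv (RingEquiv.refl (maximalRealSubfield H')) e
            (by ext; rfl)).symm }
  exact IsCMField.ofCMExtension (maximalRealSubfield H') H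

/-- Transport of the injectivity of `log_{S,p}` by an isomorphism. -/
theorem inj_equiv {p : ℕ} [Fact p.Prime] {K H H' Ω Q : Type} [Field K] [Field H] [Field H']
    [Algebra K H] [Algebra K H'] [FiniteDimensional K H] [FiniteDimensional K H'] [Field Ω]
    [Field Q] (e : H ≃ₐ[K] H') (r : Ω →+* Q) (ιinf : Q →+* ℂ) (ιp : Q →+* ℂ_[p])
    (L : IwasawaLog p ℂ_[p]) (S : Set (K →+* ℂ)) (χ : (H ≃ₐ[K] H) →* ℂ_[p]ˣ)
    (χ' : (H' ≃ₐ[K] H') →* ℂ_[p]ˣ) (hχ : ∀ h, χ' (AlgEquiv.autCongr e h) = χ h)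
    (hinj : InjectiveOn (finrank K H') χ' unitsHom
      (logSigma (ιinf.comp r) (ιp.comp r) S L)) :
    InjectiveOn (finrank K H) χ unitsHom (logSigma ιinf ιp S L) := by
  have hfr : finrank K H' = finrank K H := e.toLinearEquiv.finrank_eq.symm
  rw [hfr] at hinj
  have key : ∀ x : ℂ_[p] ⊗[ℤ] Additive (𝓞 H)ˣ,
      bc ℂ_[p] (ups (e : H →+* H')) (eChi (finrank K H) χ unitsHom x) =
        eChi (finrank K H) χ' unitsHom (bc ℂ_[p] (ups (e : H →+* H')) x) := by
    intro x
    unfold eChi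
    rw [finsum_eq_sum_of_fintype, finsum_eq_sum_of_fintype, map_smul, map_sum,
      ← (AlgEquiv.autCongr e).toEquiv.sum_comp]
    congr 1
    refine Finset.sum_congr rfl fun g _ ↦ ?_
    rw [map_smul, ← ups_equiv (e : H →+* H') g (AlgEquiv.autCongr e g) (by
      intro y
      show e (g (e.symm (e y))) = e (g y)
      rw [e.symm_apply_apply])]
    have h1 : χ' ((AlgEquiv.autCongr e) g)⁻¹ = χ g⁻¹ := by
      rw [map_inv, hχ, map_inv]
    show _ = (χ' ((AlgEquiv.autCongr e) g)⁻¹ : ℂ_[p]) • _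
    rw [h1]
    rfl
  intro x hx
  apply bc_inj (ups (e : H →+* H')) (ups_inj _)
  rw [map_zero, key]
  apply hinj
  rintro ℓ ⟨σ, hσ, rfl⟩
  rw [← key, log_ups]
  apply hx
  refine ⟨(r.comp σ).comp (e : H →+* H'), ?_, rfl⟩
  have h2 : ιinf.comp (((r.comp σ).comp (e : H →+* H')).comp (algebraMap K H)) =
      (ιinf.comp r).comp (σ.comp (algebraMap K H')) := by
    ext y
    show ιinf (r (σ (e (algebraMap K H y)))) = ιinf (r (σ (algebraMap K H' y)))
    rw [e.commutes]
  rw [h2]
  exact hσ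

theorem conj_image {K : Type} [Field K] {S : Set (K →+* ℂ)} (hS : IsCMType S) :
    ComplexEmbedding.conjugate '' S = Sᶜ := by
  ext φ
  constructor
  · rintro ⟨ψ, hψ, rfl⟩
    exact (hS ψ).1 hψ
  · intro h
    refine ⟨ComplexEmbedding.conjugate φ, ?_, ComplexEmbedding.involutive_conjugate K φ⟩
    by_contra h1
    exact h ((hS φ).2 h1)

theorem d_old : Pool.Agent.Helper38.SD.D_OLD := by
  intro hyp F K H _ _ _ _ _ _ _ _ _ _ _ hF hK hCM p _ ιinf ιp χ hχ L S₁ S₂ hS₁ hS₂ hne hne'
  have h4 : finrank ℚ K = 4 := by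
    rw [← Module.finrank_mul_finrank ℚ F K, hF, hK]
  have hfin : FiniteDimensional K H := Module.Finite.of_restrictScalars_finite ℚ K H
  have halg : Algebra.IsAlgebraic ℚ (AlgebraicClosure K) :=
    Algebra.IsAlgebraic.trans ℚ K (AlgebraicClosure K)
  -- the embeddings
  obtain ⟨r⟩ : Nonempty (AlgebraicClosure K →+* AlgebraicClosure ℚ) :=
    ⟨(IsAlgClosed.lift : AlgebraicClosure K →ₐ[ℚ] AlgebraicClosure ℚ).toRingHom⟩
  obtain ⟨j⟩ : Nonempty (H →ₐ[K] AlgebraicClosure K) := ⟨IsAlgClosed.lift⟩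
  obtain ⟨H', hH'⟩ : ∃ H' : IntermediateField K (AlgebraicClosure K), H' = j.fieldRange := ⟨_, rfl⟩
  obtain ⟨e⟩ : Nonempty (H ≃ₐ[K] H') := by
    subst hH'
    exact ⟨AlgEquiv.ofInjectiveField j⟩
  have hfin' : FiniteDimensional K H' := e.toLinearEquiv.finiteDimensional
  have hNF : NumberField H' := NumberField.of_module_finite K H'
  have hGal : IsGalois K H' := IsGalois.of_algEquiv e
  -- the character
  set ρ : (AlgebraicClosure K ≃ₐ[K] AlgebraicClosure K) →* (H ≃ₐ[K] H) :=
    (AlgEquiv.autCongr e).symm.toMonoidHom.comp (AlgEquiv.restrictNormalHom H') with hρ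
  set κ : Chr K (AlgebraicClosure K) ℂ_[p] := χ.comp ρ with hκ
  have hρe : ∀ g, AlgEquiv.autCongr e (ρ g) = AlgEquiv.restrictNormalHom H' g := by
    intro g
    exact (AlgEquiv.autCongr e).apply_symm_apply _
  have hcut : CutsOut κ H' := by
    intro g
    have h1 : κ g = 1 ↔ AlgEquiv.restrictNormalHom H' g = 1 := by
      rw [← hρe g]
      constructor
      · intro h
        have h2 : ρ g = 1 := hχ (by rw [map_one]; exact h)
        rw [h2, map_one]
      · intro h
        have h2 : ρ g = 1 := (AlgEquiv.autCongr e).injective (by rw [h, map_one])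
        show χ (ρ g) = 1
        rw [h2, map_one]
    rw [h1]
    constructor
    · intro h x hx
      have h2 := AlgEquiv.restrictNormalHom_apply H' g ⟨x, hx⟩
      rw [h] at h2
      exact h2.symm
    · intro h
      ext x
      have h2 := AlgEquiv.restrictNormalHom_apply H' g x
      exact h2.trans (h x x.2)
  have hNCM : NotCM κ := by
    intro H'' _ hcut'' hcm
    obtain rfl := cutsOut_unique hcut'' hcut
    exact hCM (cm_of_equiv (e.symm : H'' ≃+* H) hcm)
  obtain ⟨P₀, -, hP⟩ := hyp p F K hK (ιinf.comp r) (ιp.comp r) L κ ⟨H', hfin', hcut⟩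
    (Or.inr ⟨hF, hNCM⟩)
  have main : ∀ S : Set (K →+* ℂ), IsCMType S → S ≠ P₀ → S ≠ ComplexEmbedding.conjugate '' P₀ →
      InjectiveOn (finrank K H) χ unitsHom (logSigma ιinf ιp S L) := by
    intro S hS h1 h2
    have hn : S.ncard ≤ 2 := by
      have h3 := Pool.Agent.Helper35.RD.two_mul_ncard_cm hS
      omega
    obtain ⟨S', hSS', hS', hT⟩ := hP S hn (fun s hs ↦ (hS s).1 hs) h1 h2
    have hSeq : S' = S := by
      apply Set.Subset.antisymm _ hSS'
      intro φ hφ
      rw [hS φ]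
      intro h3
      exact (hS' φ).1 hφ (hSS' h3)
    subst hSeq
    have h5 := hT H' hcut
    have h6 : kd L H' κ (TSet (ιinf.comp r) (ιp.comp r) S') = 0 := by
      rw [hF] at h5
      omega
    have h7 := (leopoldt_iff Pool.Agent.Helper80.SD.m_fun (ιinf.comp r) (ιp.comp r) L S' H' κ
      fun g hg ↦ (hcut g).2 hg).2 h6
    obtain ⟨H'', hfd, hcut'', χ'', hχ'', hinj⟩ := h7
    obtain rfl := cutsOut_unique hcut'' hcut
    refine inj_equiv e r ιinf ιp L S' χ χ'' ?_ hinj
    intro h
    obtain ⟨g, hg⟩ := Pool.Agent.Helper38.FD.exists_lift (AlgEquiv.autCongr e h)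
    rw [← hχ'' g _ hg]
    show χ (ρ g) = χ h
    congr 1
    apply (AlgEquiv.autCongr e).injective
    rw [hρe]
    ext x
    have h2 := AlgEquiv.restrictNormalHom_apply H'' g x
    exact h2.trans (hg x)
  by_contra hcon
  rw [not_or] at hcon
  have a1 : S₁ = P₀ ∨ S₁ = ComplexEmbedding.conjugate '' P₀ := by
    by_contra h
    rw [not_or] at h
    exact hcon.1 (main S₁ hS₁ h.1 h.2)
  have a2 : S₂ = P₀ ∨ S₂ = ComplexEmbedding.conjugate '' P₀ := by
    by_contra h
    rw [not_or] at h
    exact hcon.2 (main S₂ hS₂ h.1 h.2)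
  rcases a1 with a1 | a1 <;> rcases a2 with a2 | a2
  · exact hne (a2.trans a1.symm)
  · apply hne'
    rw [a2, ← a1, conj_image hS₁]
  · apply hne'
    rw [a1, ← a2, conj_image hS₂, compl_compl]
  · exact hne (a2.trans a1.symm)

end Pool.Agent.Helper9.SD
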